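import Pool.Agent.R550.GB.Graph

/-!
# The broadcast dimension
-/

namespace Pool.Agent.R550.BD

variable {V : Type}

/-- The truncated distance `d_k(x,y) = min {d(x,y), k + 1}`. -/
noncomputable def dk (G : SimpleGraph V) (k : ℕ) (x y : V) : ℕ∞ := min (G.edist x y) (k + 1)

/-- `f` is a resolving broadcast of `G`: for any two distinct vertices `x`, `y` there is a vertex `z`
with `f z = i > 0` and `d_i(x,z) ≠ d_i(y,z)`. -/
def ResolvingBroadcast (G : SimpleGraph V) (f : V → ℕ) : Prop :=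
  ∀ x y, x ≠ y → ∃ z, 0 < f z ∧ dk G (f z) x z ≠ dk G (f z) y z

/-- The broadcast dimension `bdim(G)`. -/
noncomputable def bdim [Fintype V] (G : SimpleGraph V) : ℕ :=
  sInf {k : ℕ | ∃ f : V → ℕ, ResolvingBroadcast G f ∧ ∑ v, f v = k}

end Pool.Agent.R550.BD
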