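import Pool.Agent.R550.BD.Defs

/-!
# Resolving broadcasts in graphs with a universal vertex
-/

namespace Pool.Agent.R550.BD

open Finset

variable {V : Type}

/-- `S` separates any two vertices by adjacencies. -/
def Sep (G : SimpleGraph V) (S : Finset V) : Prop :=
  ∀ x y, x ≠ y → ∃ z ∈ S, z = x ∨ z = y ∨ ¬ (G.Adj z x ↔ G.Adj z y)

theorem edist_two {G : SimpleGraph V} {u : V} (hu : ∀ v, v ≠ u → G.Adj u v) {x z : V}
    (h1 : x ≠ z) (h2 : ¬ G.Adj x z) : G.edist x z = 2 := by
  have hxu : x ≠ u := by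
    rintro rfl
    exact h2 (hu z (Ne.symm h1))
  have hzu : z ≠ u := by
    rintro rfl
    exact h2 (hu x h1).symm
  have hle : G.edist x z ≤ 2 := by
    have h3 := SimpleGraph.Walk.edist_le
      (SimpleGraph.Walk.cons (hu x hxu).symm (SimpleGraph.Walk.cons (hu z hzu)
        SimpleGraph.Walk.nil))
    simpa using h3
  have h0 : G.edist x z ≠ 0 := fun h => h1 (SimpleGraph.edist_eq_zero_iff.1 h)
  have h10 : G.edist x z ≠ 1 := fun h => h2 (SimpleGraph.edist_eq_one_iff_adj.1 h)
  cases he : G.edist x z with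
  | top => rw [he] at hle; exact absurd hle (by simp)
  | coe m =>
    rw [he] at hle h0 h10
    have h3 : m ≤ 2 := by exact_mod_cast hle
    have h4 : m ≠ 0 := by exact_mod_cast h0
    have h5 : m ≠ 1 := by exact_mod_cast h10
    have h6 : m = 2 := by omega
    rw [h6]
    rfl

theorem edist_le_two {G : SimpleGraph V} {u : V} (hu : ∀ v, v ≠ u → G.Adj u v) (x z : V) :
    G.edist x z ≤ 2 := by
  by_cases h1 : x = z
  · rw [h1, SimpleGraph.edist_self]
    exact zero_le
  · by_cases h2 : G.Adj x z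
    · rw [SimpleGraph.edist_eq_one_iff_adj.2 h2]
      exact one_le_two
    · exact (edist_two hu h1 h2).le

theorem dk_eq {G : SimpleGraph V} {u : V} (hu : ∀ v, v ≠ u → G.Adj u v) {k : ℕ} (hk : 0 < k)
    (x z : V) : dk G k x z = G.edist x z := by
  unfold dk
  refine min_eq_left ((edist_le_two hu x z).trans ?_)
  have : (2 : ℕ) ≤ k + 1 := by omega
  exact_mod_cast this

theorem bdim_le_iff [Fintype V] {G : SimpleGraph V} {u : V} (hu : ∀ v, v ≠ u → G.Adj u v)
    (K : ℕ) : bdim G ≤ K ↔ ∃ S : Finset V, Sep G S ∧ S.card ≤ K := by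
  classical
  have hind : ∀ S : Finset V, Sep G S →
      S.card ∈ {k : ℕ | ∃ f : V → ℕ, ResolvingBroadcast G f ∧ ∑ v, f v = k} := by
    intro S hS
    refine ⟨fun v => if v ∈ S then 1 else 0, ?_, by simp⟩
    intro x y hxy
    obtain ⟨z, hz, h⟩ := hS x y hxy
    refine ⟨z, by simp [hz], ?_⟩
    simp only [hz, if_true]
    rw [dk_eq hu one_pos, dk_eq hu one_pos]
    by_cases h1 : z = x
    · subst h1
      rw [SimpleGraph.edist_self]
      intro h2
      exact hxy (SimpleGraph.edist_eq_zero_iff.1 h2.symm).symm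
    · by_cases h2 : z = y
      · subst h2
        rw [SimpleGraph.edist_self]
        intro h2
        exact hxy (SimpleGraph.edist_eq_zero_iff.1 h2)
      · have h3 : ¬ (G.Adj z x ↔ G.Adj z y) := by tauto
        by_cases h4 : G.Adj z x
        · have h5 : ¬ G.Adj z y := by tauto
          rw [SimpleGraph.edist_eq_one_iff_adj.2 h4.symm,
            edist_two hu (Ne.symm h2) (fun h => h5 h.symm)]
          exact (by decide : (1 : ℕ∞) ≠ 2)
        · have h5 : G.Adj z y := by tauto
          rw [SimpleGraph.edist_eq_one_iff_adj.2 h5.symm,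
            edist_two hu (Ne.symm h1) (fun h => h4 h.symm)]
          exact (by decide : (2 : ℕ∞) ≠ 1)
  constructor
  · intro h
    have hne : {k : ℕ | ∃ f : V → ℕ, ResolvingBroadcast G f ∧ ∑ v, f v = k}.Nonempty :=
      ⟨_, hind univ fun x y _ => ⟨x, mem_univ _, Or.inl rfl⟩⟩
    obtain ⟨f, hf, hfs⟩ := Nat.sInf_mem hne
    refine ⟨univ.filter fun v => 0 < f v, ?_, ?_⟩
    · intro x y hxy
      obtain ⟨z, hz, h1⟩ := hf x y hxy
      refine ⟨z, mem_filter.2 ⟨mem_univ _, hz⟩, ?_⟩
      by_contra hcon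
      push Not at hcon
      obtain ⟨h2, h3, h4⟩ := hcon
      rw [dk_eq hu hz, dk_eq hu hz] at h1
      apply h1
      by_cases h5 : G.Adj z x
      · rw [SimpleGraph.edist_eq_one_iff_adj.2 h5.symm,
          SimpleGraph.edist_eq_one_iff_adj.2 (h4.1 h5).symm]
      · rw [edist_two hu (Ne.symm h2) (fun h => h5 h.symm),
          edist_two hu (Ne.symm h3) (fun h => h5 (h4.2 h.symm))]
    · have h2 : (univ.filter fun v => 0 < f v).card ≤ ∑ v, f v := by
        rw [card_eq_sum_ones]
        refine (sum_le_sum (g := f) fun v hv => (mem_filter.1 hv).2).trans ?_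
        exact sum_le_sum_of_subset (filter_subset _ _)
      rw [hfs] at h2
      exact h2.trans h
  · rintro ⟨S, hS, hSK⟩
    exact (Nat.sInf_le (hind S hS)).trans hSK

end Pool.Agent.R550.BD
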