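import Pool.Agent.R550.BD.Main
import Pool.Agent.NPC.Classes

/-!
# Computing the broadcast dimension is NP-hard
-/

namespace Pool.Agent.R550.BD

open Pool.Agent.NPC Pool.Agent.NPC.H632 Pool.Agent.H557R2.Tri Pool.Agent.R550.GB

/-- The instance with the number `q` capped by the number of triples. -/
def cap (I : List (ℕ × ℕ × ℕ) × ℕ) : List (ℕ × ℕ × ℕ) × ℕ := (I.1, min I.2 I.1.length)

theorem cap_eq {I : List (ℕ × ℕ × ℕ) × ℕ} (hI : Pr I.1 I.2) : cap I = I := by
  unfold cap
  rw [min_eq_left (TD.q_le hI)]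

/-- The reduction. -/
def redc (I : List (ℕ × ℕ × ℕ) × ℕ) : List (List ℕ) × ℕ :=
  (gr (cap I), W (cap I) + 1 + (cap I).2)

theorem poly_cap : NPC.Poly cap := by
  unfold cap
  fun_prop

theorem poly_T {α : Type} [TEnc α] {I : α → List (ℕ × ℕ × ℕ) × ℕ} {x y : α → ℕ × ℕ}
    (hI : NPC.Poly I) (hx : NPC.Poly x) (hy : NPC.Poly y) :
    NPC.Poly (fun a => T (I a) (x a) (y a)) := by
  unfold T el
  fun_prop

theorem poly_redc : NPC.Poly redc := by
  have hlen : UPoly (fun I : List (ℕ × ℕ × ℕ) × ℕ => I.1.length) :=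
    UPoly.length (NPC.Poly.fst NPC.Poly.id)
  have hmin : UPoly (fun I : List (ℕ × ℕ × ℕ) × ℕ => min I.2 I.1.length) :=
    UPoly.of_le (NPC.Poly.min (NPC.Poly.snd NPC.Poly.id) hlen.toPoly) hlen
      (fun I => Nat.min_le_right _ _)
  have h3 : UPoly (fun I : List (ℕ × ℕ × ℕ) × ℕ => 3 * (cap I).2) :=
    UPoly.mul (UPoly.const 3) hmin
  have hl : UPoly (fun I : List (ℕ × ℕ × ℕ) × ℕ => (cap I).1.length) := hlen
  have hW : UPoly (fun I : List (ℕ × ℕ × ℕ) × ℕ => W (cap I)) := UPoly.add hl h3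
  have hW1 : UPoly (fun I : List (ℕ × ℕ × ℕ) × ℕ => W (cap I) + 1) :=
    UPoly.add hW (UPoly.const 1)
  have h1 : UPoly (fun _ : List (ℕ × ℕ × ℕ) × ℕ => 1) := UPoly.const 1
  have h0 : UPoly (fun _ : List (ℕ × ℕ × ℕ) × ℕ => 0) := UPoly.const 0
  have hblk : NPC.Poly (fun I => blocks 6 (cnt (cap I))) := by
    refine poly_blocks 6 fun t => ?_
    by_cases ht : t < 6
    · interval_cases t
      · exact hl
      · exact h3
      · exact h3
      · exact hW1
      · exact hW1
      · exact h1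
    · have h : (fun I : List (ℕ × ℕ × ℕ) × ℕ => cnt (cap I) t) = fun _ => 0 := by
        funext I
        unfold cnt
        rw [List.getD_eq_getElem?_getD, List.getElem?_eq_none]
        · rfl
        · simp only [List.length_cons, List.length_nil]
          omega
      rw [h]
      exact h0
  refine NPC.Poly.pair ?_ (NPC.Poly.add (UPoly.toPoly hW1) (NPC.Poly.snd poly_cap))
  unfold gr
  exact poly_mkL (t := fun I => T (cap I)) hblk (poly_T
    (poly_cap.comp (NPC.Poly.fst (NPC.Poly.fst NPC.Poly.id)))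
    (NPC.Poly.snd (NPC.Poly.fst NPC.Poly.id)) (NPC.Poly.snd NPC.Poly.id))

theorem hard : HardI (fun x : List (List ℕ) × ℕ => bdim (graph x.1) ≤ x.2) :=
  (hardPr_X3Cr.trans (Pr' := fun _ => True) (Q := fun x : List (List ℕ) × ℕ =>
    bdim (graph x.1) ≤ x.2) poly_redc (fun _ _ => trivial) (fun I hI => by
      unfold redc
      rw [cap_eq hI]
      exact correct hI)).toHardI

end Pool.Agent.R550.BD
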