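import Pool.Agent.R550.BD.Diam
import Pool.Agent.R550.GB.Build
import Pool.Agent.R550.TD.Main

/-!
# The reduction from exact cover by 3-sets to the broadcast dimension
-/

namespace Pool.Agent.R550.BD

open Finset Pool.Agent.NPC.H632 Pool.Agent.H557R2.Tri Pool.Agent.R550.GB

/-- The number of items: triples and elements. -/
def W (I : List (ℕ × ℕ × ℕ) × ℕ) : ℕ := I.1.length + 3 * I.2

/-- The sizes of the blocks of vertices: triples; the two vertices of each element; the bits and
their twins; the universal vertex. -/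
def cnt (I : List (ℕ × ℕ × ℕ) × ℕ) (t : ℕ) : ℕ :=
  [I.1.length, 3 * I.2, 3 * I.2, W I + 1, W I + 1, 1].getD t 0

/-- The adjacency test. -/
def T (I : List (ℕ × ℕ × ℕ) × ℕ) (x y : ℕ × ℕ) : Bool :=
  decide (x.1 = 5) ||
  (decide (x.1 = 0) && (decide (y.1 = 1) ||
    ((decide (y.1 = 2) && !decide (y.2 ∈ el (I.1.getD x.2 (0, 0, 0)))) ||
      ((decide (y.1 = 3) || decide (y.1 = 4)) &&
        (decide (y.2 = x.2) || decide (y.2 = x.2 + 1)))))) ||
  ((decide (x.1 = 1) || decide (x.1 = 2)) && ((decide (y.1 = 3) || decide (y.1 = 4)) &&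
    (decide (y.2 = I.1.length + x.2) || decide (y.2 = I.1.length + x.2 + 1)))) ||
  (decide (x.1 = 3) && (decide (y.1 = 4) && decide (x.2 = y.2)))

/-- The graph of the reduction. -/
def gr (I : List (ℕ × ℕ × ℕ) × ℕ) : List (List ℕ) := mkL (blocks 6 (cnt I)) (T I)

section

variable {I : List (ℕ × ℕ × ℕ) × ℕ}

variable {V : Type} {G : SimpleGraph V} {lab : V → ℕ × ℕ}

/-- The labelled graph of the reduction. -/
structure Gad (I : List (ℕ × ℕ × ℕ) × ℕ) (G : SimpleGraph V) (lab : V → ℕ × ℕ) : Prop where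
  inj : Function.Injective lab
  ok : ∀ v, (lab v).1 < 6 ∧ (lab v).2 < cnt I (lab v).1
  ex : ∀ t i, t < 6 → i < cnt I t → ∃ v, lab v = (t, i)
  adj : ∀ u v, G.Adj u v ↔ u ≠ v ∧ (T I (lab u) (lab v) = true ∨ T I (lab v) (lab u) = true)

theorem Gad.universal (h : Gad I G lab) : ∃ u, ∀ v, v ≠ u → G.Adj u v := by
  obtain ⟨u, hu⟩ := h.ex 5 0 (by norm_num) (by simp [cnt])
  refine ⟨u, fun v hv => (h.adj u v).2 ⟨Ne.symm hv, Or.inl ?_⟩⟩
  rw [hu]
  simp [T]

/-- adjacency to the bit vertices `(3, l)` and `(4, l)` for vertices of other kinds -/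
def toBit (I : List (ℕ × ℕ × ℕ) × ℕ) (x : ℕ × ℕ) (l : ℕ) : Prop :=
  (x.1 = 0 ∧ (l = x.2 ∨ l = x.2 + 1)) ∨
  ((x.1 = 1 ∨ x.1 = 2) ∧ (l = I.1.length + x.2 ∨ l = I.1.length + x.2 + 1)) ∨
  ((x.1 = 3 ∨ x.1 = 4) ∧ l = x.2) ∨ x.1 = 5

theorem Gad.adj_bit (h : Gad I G lab) {b v : V} {l : ℕ} (hb : lab b = (3, l))
    (hv : (lab v).1 ≠ 3) : G.Adj b v ↔ toBit I (lab v) l := by
  rw [h.adj]
  have hne : b ≠ v := by
    rintro rfl
    rw [hb] at hv
    exact hv rfl
  have hok := h.ok v
  rcases hx : lab v with ⟨t, i⟩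
  rw [hb]
  simp only [hx] at hv hok
  simp only [T, toBit]
  obtain ⟨h1, _⟩ := hok
  interval_cases t <;> simp [hne] at hv ⊢

theorem Gad.adj_bit' (h : Gad I G lab) {b v : V} {l : ℕ} (hb : lab b = (4, l))
    (hv : (lab v).1 ≠ 4) : G.Adj b v ↔ toBit I (lab v) l := by
  rw [h.adj]
  have hne : b ≠ v := by
    rintro rfl
    rw [hb] at hv
    exact hv rfl
  have hok := h.ok v
  rcases hx : lab v with ⟨t, i⟩
  rw [hb]
  simp only [hx] at hv hok
  simp only [T, toBit]
  obtain ⟨h1, _⟩ := hok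
  interval_cases t <;> simp [hne] at hv ⊢
  omega

theorem Gad.not_adj (h : Gad I G lab) {u v : V} {t : ℕ} (ht : t = 3 ∨ t = 4)
    (hu : (lab u).1 = t) (hv : (lab v).1 = t) : ¬ G.Adj u v := by
  rw [h.adj]
  rintro ⟨_, h1⟩
  rcases ht with rfl | rfl <;> simp [T, hu, hv] at h1

theorem Gad.sep_bit (h : Gad I G lab) {S : Finset V} (hS : Sep G S) {l : ℕ} (hl : l < W I + 1) :
    ∃ z ∈ S, (lab z).2 = l ∧ ((lab z).1 = 3 ∨ (lab z).1 = 4) := by
  obtain ⟨x, hx⟩ := h.ex 3 l (by norm_num) (by simpa [cnt] using hl)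
  obtain ⟨y, hy⟩ := h.ex 4 l (by norm_num) (by simpa [cnt] using hl)
  obtain ⟨z, hz, h1⟩ := hS x y (by
    rintro rfl
    rw [hx] at hy
    simp at hy)
  refine ⟨z, hz, ?_⟩
  rcases h1 with rfl | rfl | h1
  · rw [hx]; simp
  · rw [hy]; simp
  · by_cases h3 : (lab z).1 = 3
    · have hz3 : lab z = (3, (lab z).2) := Prod.ext h3 rfl
      refine ⟨?_, Or.inl h3⟩
      by_contra hne
      apply h1
      have e1 : ¬ G.Adj z x := h.not_adj (Or.inl rfl) h3 (by rw [hx])
      have e2 : ¬ G.Adj z y := by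
        rw [h.adj_bit hz3 (by rw [hy]; simp), hy]
        simp [toBit, hne]
      exact ⟨fun e => absurd e e1, fun e => absurd e e2⟩
    · by_cases h4 : (lab z).1 = 4
      · have hz4 : lab z = (4, (lab z).2) := Prod.ext h4 rfl
        refine ⟨?_, Or.inr h4⟩
        by_contra hne
        apply h1
        have e2 : ¬ G.Adj z y := h.not_adj (Or.inr rfl) h4 (by rw [hy])
        have e1 : ¬ G.Adj z x := by
          rw [h.adj_bit' hz4 (by rw [hx]; simp), hx]
          simp [toBit, hne]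
        exact ⟨fun e => absurd e e1, fun e => absurd e e2⟩
      · exfalso
        apply h1
        rw [G.adj_comm z x, G.adj_comm z y, h.adj_bit hx h3, h.adj_bit' hy h4]

theorem Gad.sep_pair (h : Gad I G lab) {S : Finset V} (hS : Sep G S) {x : ℕ} (hx : x < 3 * I.2) :
    ∃ z ∈ S, ((lab z).1 = 1 ∨ (lab z).1 = 2) ∧ (lab z).2 = x ∨
      (lab z).1 = 0 ∧ x ∈ el (I.1.getD (lab z).2 (0, 0, 0)) := by
  obtain ⟨u, hu⟩ := h.ex 1 x (by norm_num) (by simpa [cnt] using hx)
  obtain ⟨v, hv⟩ := h.ex 2 x (by norm_num) (by simpa [cnt] using hx)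
  obtain ⟨z, hz, h1⟩ := hS u v (by
    rintro rfl
    rw [hu] at hv
    simp at hv)
  refine ⟨z, hz, ?_⟩
  rcases h1 with rfl | rfl | h1
  · left; rw [hu]; simp
  · left; rw [hv]; simp
  · by_cases hzu : z = u
    · left; rw [hzu, hu]; simp
    · by_cases hzv : z = v
      · left; rw [hzv, hv]; simp
      · right
        rw [h.adj, h.adj, hu, hv] at h1
        have hok := (h.ok z).1
        rcases hlz : lab z with ⟨t, i⟩
        rw [hlz] at h1 hok
        simp only at hok
        interval_cases t <;> simp [T, hzu, hzv] at h1 ⊢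
        exact h1

theorem Gad.lower (h : Gad I G lab) (hI : Pr I.1 I.2) {S : Finset V} (hS : Sep G S)
    (hc : S.card ≤ W I + 1 + I.2) : X3C I := by
  classical
  set S1 := S.filter fun v => (lab v).1 < 3 with hS1
  set S2 := S.filter fun v => ¬ (lab v).1 < 3 with hS2
  have hsum : S1.card + S2.card = S.card := card_filter_add_card_filter_not _
  have h2 : W I + 1 ≤ S2.card := by
    have h3 : range (W I + 1) ⊆ S2.image fun v => (lab v).2 := by
      intro l hl
      obtain ⟨z, hz, hz2, hz3⟩ := h.sep_bit hS (mem_range.1 hl)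
      exact mem_image.2 ⟨z, mem_filter.2 ⟨hz, by omega⟩, hz2⟩
    have h4 := (card_le_card h3).trans card_image_le
    rwa [card_range] at h4
  have hg : ∀ v, ∃ C, C ∈ I.1 ∧ ((lab v).1 = 0 → C = I.1.getD (lab v).2 (0, 0, 0)) ∧
      ((lab v).1 = 1 ∨ (lab v).1 = 2 → (lab v).2 ∈ el C) := by
    intro v
    obtain ⟨_, hok⟩ := h.ok v
    by_cases h0 : (lab v).1 = 0
    · rw [h0] at hok
      have hlt : (lab v).2 < I.1.length := by simpa [cnt] using hok
      refine ⟨I.1.getD (lab v).2 (0, 0, 0), ?_, fun _ => rfl, fun h' => by omega⟩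
      rw [List.getD_eq_getElem _ _ hlt]
      exact List.getElem_mem hlt
    · by_cases h1 : (lab v).1 = 1 ∨ (lab v).1 = 2
      · have hlt : (lab v).2 < 3 * I.2 := by
          rcases h1 with h1 | h1 <;> rw [h1] at hok <;> simpa [cnt] using hok
        obtain ⟨C, hC, hx⟩ := hI.occ _ hlt
        exact ⟨C, hC, fun h' => absurd h' h0, fun _ => hx⟩
      · obtain ⟨C, hC⟩ := List.exists_mem_of_ne_nil _ hI.ne
        exact ⟨C, hC, fun h' => absurd h' h0, fun h' => absurd h' h1⟩
  choose g hgm hg0 hg1 using hg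
  have hcov : ∀ x < 3 * I.2, ∃ C ∈ S1.toList.map g, x ∈ el C := by
    intro x hx
    obtain ⟨z, hz, h3⟩ := h.sep_pair hS hx
    refine ⟨g z, List.mem_map_of_mem (mem_toList.2 (mem_filter.2 ⟨hz, ?_⟩)), ?_⟩
    · rcases h3 with ⟨h3, _⟩ | ⟨h3, _⟩ <;> omega
    · rcases h3 with ⟨h3, h4⟩ | ⟨h3, h4⟩
      · rw [← h4]
        exact hg1 z h3
      · rw [hg0 z h3]
        exact h4
  obtain ⟨h5, h6⟩ := TD.cover_card _ hcov
  rw [List.length_map, length_toList] at h5 h6
  refine ⟨S1.toList.map g, ?_, h6 (by omega)⟩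
  intro C hC
  obtain ⟨v, _, rfl⟩ := List.mem_map.1 hC
  exact hgm v

theorem Gad.upper (h : Gad I G lab) (hI : Pr I.1 I.2) (hX : X3C I) :
    ∃ S : Finset V, Sep G S ∧ S.card ≤ W I + 1 + I.2 := by
  classical
  obtain ⟨C, hC, hp⟩ := hX
  have hlen : C.length = I.2 := X3C_length hp
  have hWpos : 3 ≤ W I := by
    have h1 := TD.q_pos hI
    unfold W
    omega
  have hbv : ∀ l, ∃ v, l < W I + 1 → lab v = (3, l) := by
    intro l
    by_cases hl : l < W I + 1
    · obtain ⟨v, hv⟩ := h.ex 3 l (by norm_num) (by simpa [cnt] using hl)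
      exact ⟨v, fun _ => hv⟩
    · obtain ⟨v, _⟩ := h.ex 5 0 (by norm_num) (by simp [cnt])
      exact ⟨v, fun h' => absurd h' hl⟩
  choose bv hbv using hbv
  have htv : ∀ D : ℕ × ℕ × ℕ, ∃ v, D ∈ C → (lab v).1 = 0 ∧
      I.1.getD (lab v).2 (0, 0, 0) = D := by
    intro D
    by_cases hD : D ∈ C
    · obtain ⟨i, hi, hiD⟩ := List.mem_iff_getElem.1 (hC D hD)
      obtain ⟨v, hv⟩ := h.ex 0 i (by norm_num) (by simpa [cnt] using hi)
      refine ⟨v, fun _ => ?_⟩
      rw [hv]
      exact ⟨rfl, by rw [List.getD_eq_getElem _ _ hi, hiD]⟩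
    · obtain ⟨v, _⟩ := h.ex 5 0 (by norm_num) (by simp [cnt])
      exact ⟨v, fun h' => absurd h' hD⟩
  choose tv htv using htv
  set S : Finset V := (range (W I + 1)).image bv ∪ C.toFinset.image tv with hSdef
  refine ⟨S, ?_, ?_⟩
  · have hkey : ∀ x y, x ≠ y → (lab x).1 ≠ 3 → (lab y).1 ≠ 3 →
        (∀ l < W I + 1, (toBit I (lab x) l ↔ toBit I (lab y) l)) →
        ∃ z ∈ S, ¬ (G.Adj z x ↔ G.Adj z y) := by
      intro x y hxy hx3 hy3 hall
      have hne : lab x ≠ lab y := fun e => hxy (h.inj e)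
      have hokx := h.ok x
      have hoky := h.ok y
      -- both are the two vertices of an element
      have hsame : (lab x).2 = (lab y).2 ∧ ((lab x).1 = 1 ∧ (lab y).1 = 2 ∨
          (lab x).1 = 2 ∧ (lab y).1 = 1) := by
        rcases hlx : lab x with ⟨s, i⟩
        rcases hly : lab y with ⟨t, j⟩
        rw [hlx] at hne hokx hx3 hall
        rw [hly] at hne hoky hy3 hall
        simp only [ne_eq, Prod.mk.injEq, not_and] at hne hokx hoky hx3 hy3 ⊢
        obtain ⟨hs, hsi⟩ := hokx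
        obtain ⟨ht, htj⟩ := hoky
        have a0 := hall 0 (by omega)
        have a1 := hall 1 (by omega)
        have a2 := hall 2 (by omega)
        have ai := hall i
        have ai1 := hall (i + 1)
        have aj := hall j
        have aj1 := hall (j + 1)
        have ati := hall (I.1.length + i)
        have ati1 := hall (I.1.length + i + 1)
        have atj := hall (I.1.length + j)
        have atj1 := hall (I.1.length + j + 1)
        clear hall
        interval_cases s <;> interval_cases t <;>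
          simp [toBit, cnt, W] at hsi htj hne hx3 hy3 a0 a1 a2 ai ai1 aj aj1 ati ati1 atj atj1 ⊢ <;>
          omega
      obtain ⟨h1, h2⟩ := hsame
      have hlt : (lab x).2 < 3 * I.2 := by
        have h3 := hokx.2
        rcases h2 with ⟨h2, _⟩ | ⟨h2, _⟩ <;> rw [h2] at h3 <;> simpa [cnt] using h3
      obtain ⟨D, hD, hxD⟩ := List.mem_flatMap.1 (hp.mem_iff.2 (List.mem_range.2 hlt))
      obtain ⟨h3, h4⟩ := htv D hD
      refine ⟨tv D, mem_union_right _ (mem_image_of_mem tv (List.mem_toFinset.2 hD)), ?_⟩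
      rcases hlx : lab x with ⟨s, i⟩
      rcases hly : lab y with ⟨t, j⟩
      rcases hlz : lab (tv D) with ⟨k, m⟩
      rw [hlx, hly] at h1 h2
      rw [hlx] at hxD
      rw [hlz] at h3 h4
      simp only at h1 h2 h3 h4 hxD
      have hzx : tv D ≠ x := by
        intro e
        rw [e, hlx] at hlz
        simp only [Prod.mk.injEq] at hlz
        omega
      have hzy : tv D ≠ y := by
        intro e
        rw [e, hly] at hlz
        simp only [Prod.mk.injEq] at hlz
        omega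
      subst h1
      subst h3
      rw [h.adj, h.adj, hlx, hly, hlz]
      rw [← h4, List.getD_eq_getElem?_getD] at hxD
      rcases h2 with ⟨rfl, rfl⟩ | ⟨rfl, rfl⟩ <;> simp [T, hzx, hzy, hxD]
    intro x y hxy
    by_cases hx3 : (lab x).1 = 3
    · refine ⟨x, ?_, Or.inl rfl⟩
      have hl : (lab x).2 < W I + 1 := by
        have := (h.ok x).2
        rw [hx3] at this
        simpa [cnt] using this
      have : bv (lab x).2 = x := h.inj (by rw [hbv _ hl]; exact Prod.ext hx3.symm rfl)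
      rw [← this]
      exact mem_union_left _ (mem_image_of_mem bv (mem_range.2 hl))
    · by_cases hy3 : (lab y).1 = 3
      · refine ⟨y, ?_, Or.inr (Or.inl rfl)⟩
        have hl : (lab y).2 < W I + 1 := by
          have := (h.ok y).2
          rw [hy3] at this
          simpa [cnt] using this
        have : bv (lab y).2 = y := h.inj (by rw [hbv _ hl]; exact Prod.ext hy3.symm rfl)
        rw [← this]
        exact mem_union_left _ (mem_image_of_mem bv (mem_range.2 hl))
      · by_cases hall : ∀ l < W I + 1, (toBit I (lab x) l ↔ toBit I (lab y) l)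
        · obtain ⟨z, hz, h1⟩ := hkey x y hxy hx3 hy3 hall
          exact ⟨z, hz, Or.inr (Or.inr h1)⟩
        · push Not at hall
          obtain ⟨l, hl, h1⟩ := hall
          refine ⟨bv l, mem_union_left _ (mem_image_of_mem bv (mem_range.2 hl)),
            Or.inr (Or.inr ?_)⟩
          rw [h.adj_bit (hbv l hl) hx3, h.adj_bit (hbv l hl) hy3]
          tauto
  · refine (card_union_le _ _).trans ?_
    have h5 : ((range (W I + 1)).image bv).card ≤ W I + 1 := by
      refine card_image_le.trans ?_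
      rw [card_range]
    have h6 : (C.toFinset.image tv).card ≤ C.toFinset.card := card_image_le
    have h7 := C.toFinset_card_le
    omega

end

/-- **Correctness.** -/
theorem correct {I : List (ℕ × ℕ × ℕ) × ℕ} (hI : Pr I.1 I.2) :
    X3C I ↔ bdim (graph (gr I)) ≤ W I + 1 + I.2 := by
  obtain ⟨lab, h1, h2, h3, h4⟩ := exists_lab 6 (cnt I) (T I)
  have h : Gad I (graph (gr I)) lab := ⟨h1, h2, h3, h4⟩
  obtain ⟨u, hu⟩ := h.universal
  rw [bdim_le_iff hu]
  constructor
  · exact h.upper hI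
  · rintro ⟨S, hS, hc⟩
    exact h.lower hI hS hc

end Pool.Agent.R550.BD
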